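import Mathlib
import Pool.Agent.X158.RelInt
import Pool.Agent.Y36.PG.Car

set_option autoImplicit false

/-!
# A Helly number for `k`-almost-neighborly sets

If a finite set `A` is not `k`-almost-neighborly, some `x` in the relative interior of `conv A` lies
in the hull of a `k`-subset. By Carathéodory's theorem, `x` is a positive combination of an
affinely independent set `B₀` with `j` points of this subset. Modulo the directions of `B₀`, Steinitz'
theorem on positively spanning sets gives `2 (d - j + 1)` further points, and altogether we find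
`2 d + 2 - j ≤ 2 d + 1` points having `x` in the relative interior of their hull.
-/

namespace Pool.Agent.Results.MP_aae461_co.HellyTwoDPlusOne

open Finset

/-- `A` is `k`-almost-neighborly: the convex hull of every `k`-element subset of `A` lies in the
relative boundary of the convex hull of `A`. -/
def AlmostNeighborly {d : ℕ} (k : ℕ) (A : Finset (EuclideanSpace ℝ (Fin d))) : Prop :=
  ∀ B ⊆ A, B.card = k → convexHull ℝ (B : Set (EuclideanSpace ℝ (Fin d))) ⊆
    intrinsicFrontier ℝ (convexHull ℝ (A : Set (EuclideanSpace ℝ (Fin d))))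

section cone

variable {E : Type*} [AddCommGroup E] [Module ℝ E]

/-- `v` is a combination of the vectors `a - x`, `a ∈ D`, with nonnegative coefficients. -/
def Cn (D : Finset E) (x v : E) : Prop :=
  ∃ c : E → ℝ, (∀ a ∈ D, 0 ≤ c a) ∧ ∑ a ∈ D, c a • (a - x) = v

theorem Cn.add {D : Finset E} {x v w : E} (hv : Cn D x v) (hw : Cn D x w) : Cn D x (v + w) := by
  obtain ⟨c, h0, rfl⟩ := hv
  obtain ⟨e, g0, rfl⟩ := hw
  refine ⟨fun a => c a + e a, fun a ha => add_nonneg (h0 a ha) (g0 a ha), ?_⟩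
  simp_rw [add_smul]
  rw [Finset.sum_add_distrib]

theorem Cn.smul {D : Finset E} {x v : E} (hv : Cn D x v) {r : ℝ} (hr : 0 ≤ r) :
    Cn D x (r • v) := by
  obtain ⟨c, h0, rfl⟩ := hv
  refine ⟨fun a => r * c a, fun a ha => mul_nonneg hr (h0 a ha), ?_⟩
  simp_rw [mul_smul]
  rw [Finset.smul_sum]

theorem Cn.zero (D : Finset E) (x : E) : Cn D x 0 := ⟨fun _ => 0, fun _ _ => le_rfl, by simp⟩

theorem Cn.sum {ι : Type*} {D : Finset E} {x : E} (s : Finset ι) {f : ι → E}
    (h : ∀ i ∈ s, Cn D x (f i)) : Cn D x (∑ i ∈ s, f i) := by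
  classical
  induction s using Finset.induction_on with
  | empty => simpa using Cn.zero D x
  | insert i s hi ih =>
    rw [Finset.sum_insert hi]
    exact (h i (mem_insert_self i s)).add (ih fun j hj => h j (mem_insert_of_mem hj))

theorem Cn.single {D : Finset E} {x a : E} (ha : a ∈ D) : Cn D x (a - x) := by
  classical
  refine ⟨fun b => if b = a then 1 else 0, fun b _ => by positivity, ?_⟩
  rw [Finset.sum_eq_single a]
  · simp
  · intro b _ hb
    simp [hb]
  · intro h
    exact absurd ha h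

theorem Cn.mono {D D' : Finset E} {x v : E} (h : D ⊆ D') (hv : Cn D x v) : Cn D' x v := by
  obtain ⟨c, h0, rfl⟩ := hv
  exact Cn.sum D fun a ha => (Cn.single (h ha)).smul (h0 a ha)

/-- The span of the vectors `a - x`, `a ∈ D`. -/
def Sp (D : Finset E) (x : E) : Submodule ℝ E := Submodule.span ℝ ((fun a => a - x) '' (D : Set E))

theorem mem_Sp {D : Finset E} {x a : E} (ha : a ∈ D) : a - x ∈ Sp D x :=
  Submodule.subset_span ⟨a, ha, rfl⟩

theorem span_of_neg {D I : Finset E} {x : E}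
    (h : ∀ a ∈ I, Cn D x (a - x) ∧ Cn D x (-(a - x))) {v : E} (hv : v ∈ Sp I x) : Cn D x v := by
  have key : ∀ v ∈ Sp I x, ∀ r : ℝ, Cn D x (r • v) := by
    intro v hv
    unfold Sp at hv
    induction hv using Submodule.span_induction with
    | mem v hv =>
      obtain ⟨a, ha, rfl⟩ := hv
      intro r
      rcases le_total 0 r with hr | hr
      · exact (h a ha).1.smul hr
      · have := (h a ha).2.smul (neg_nonneg.2 hr)
        rwa [smul_neg, neg_smul, neg_neg] at this
    | zero => intro r; rw [smul_zero]; exact Cn.zero D x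
    | add a b _ _ iha ihb => intro r; rw [smul_add]; exact (iha r).add (ihb r)
    | smul a z _ ih => intro r; rw [smul_smul]; exact ih (r * a)
  have := key v hv 1
  rwa [one_smul] at this

/-- If `x` is a positive combination of `D` then the cone of the vectors `a - x` is a subspace. -/
theorem cn_of_pos {D : Finset E} {x : E} {w : E → ℝ} (hw : ∀ a ∈ D, 0 < w a)
    (h1 : ∑ a ∈ D, w a = 1) (h2 : ∑ a ∈ D, w a • a = x) {v : E} (hv : v ∈ Sp D x) :
    Cn D x v := by
  classical
  have h0 : ∑ a ∈ D, w a • (a - x) = 0 := by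
    simp_rw [smul_sub]
    rw [Finset.sum_sub_distrib, ← Finset.sum_smul, h1, h2, one_smul, sub_self]
  have hneg : ∀ a ∈ D, Cn D x (-(a - x)) := by
    intro a ha
    have h3 : -(a - x) = (w a)⁻¹ • ∑ b ∈ D.erase a, w b • (b - x) := by
      have h4 := Finset.add_sum_erase D (fun b => w b • (b - x)) ha
      rw [h0] at h4
      have h5 : ∑ b ∈ D.erase a, w b • (b - x) = -(w a • (a - x)) :=
        eq_neg_of_add_eq_zero_right h4
      rw [h5, smul_neg, smul_smul, inv_mul_cancel₀ (hw a ha).ne', one_smul]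
    rw [h3]
    apply Cn.smul _ (inv_nonneg.2 (hw a ha).le)
    apply Cn.sum
    intro b hb
    have hb' := Finset.mem_of_mem_erase hb
    exact (Cn.single hb').smul (hw b hb').le
  exact span_of_neg (fun a ha => ⟨Cn.single ha, hneg a ha⟩) hv

theorem finrank_span_diff {ι : Type*} [Fintype ι] [FiniteDimensional ℝ E] [DecidableEq E]
    {z : ι → E} (hz : AffineIndependent ℝ z) (x : E) :
    Fintype.card ι ≤ Module.finrank ℝ (Sp (univ.image z) x) + 1 := by
  rcases isEmpty_or_nonempty ι with h | h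
  · rw [Fintype.card_eq_zero]; omega
  · have h1 : vectorSpan ℝ (Set.range z) ≤ Sp (univ.image z) x := by
      rw [vectorSpan_def, Submodule.span_le]
      rintro _ ⟨_, ⟨i, rfl⟩, _, ⟨j, rfl⟩, rfl⟩
      show z i -ᵥ z j ∈ Sp (univ.image z) x
      have : z i -ᵥ z j = (z i - x) - (z j - x) := by rw [vsub_eq_sub]; abel
      rw [this]
      exact Submodule.sub_mem _ (mem_Sp (mem_image_of_mem _ (mem_univ _)))
        (mem_Sp (mem_image_of_mem _ (mem_univ _)))
    obtain ⟨n, hn⟩ : ∃ n, Fintype.card ι = n + 1 :=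
      ⟨Fintype.card ι - 1, (Nat.succ_pred_eq_of_pos Fintype.card_pos).symm⟩
    have h2 := hz.finrank_vectorSpan hn
    have h3 := Submodule.finrank_mono h1
    omega

/-- Steinitz' theorem modulo the directions of `B₀`. -/
theorem steinitz [FiniteDimensional ℝ E] [DecidableEq E] {A B₀ : Finset E} {x : E}
    (hB : B₀ ⊆ A) {w : E → ℝ} (hw : ∀ a ∈ B₀, 0 < w a)
    (h1 : ∑ a ∈ B₀, w a = 1) (h2 : ∑ a ∈ B₀, w a • a = x)
    (hA : ∀ v ∈ Sp A x, Cn A x v) :
    ∃ D, B₀ ⊆ D ∧ D ⊆ A ∧
      D.card + 2 * Module.finrank ℝ (Sp B₀ x) ≤ B₀.card + 2 * Module.finrank ℝ E ∧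
      ∀ v ∈ Sp A x, Cn D x v := by
  classical
  set L := Sp B₀ x with hL
  have hdim : Module.finrank ℝ (E ⧸ L) + Module.finrank ℝ L = Module.finrank ℝ E :=
    Submodule.finrank_quotient_add_finrank L
  obtain ⟨κ, f, hf, hspan, hli⟩ := exists_linearIndependent' ℝ (fun a : A => L.mkQ ((a : E) - x))
  have : Finite κ := Finite.of_injective f hf
  have : Fintype κ := Fintype.ofFinite κ
  set I : Finset E := univ.image (fun k => (f k : E)) with hI
  have hIA : I ⊆ A := by
    intro a ha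
    obtain ⟨k, -, rfl⟩ := Finset.mem_image.1 ha
    exact (f k).2
  have hIc : I.card ≤ Module.finrank ℝ (E ⧸ L) := by
    refine Finset.card_image_le.trans ?_
    rw [Finset.card_univ]
    exact hli.fintype_card_le_finrank
  -- every vector of the span of `A` is, modulo `L`, a vector of the span of `I`
  have hmod : ∀ v ∈ Sp A x, ∃ u ∈ Sp I x, v - u ∈ L := by
    intro v hv
    have h3 : L.mkQ v ∈ (Sp I x).map L.mkQ := by
      have h4 : (Sp I x).map L.mkQ = Submodule.span ℝ
          (Set.range ((fun a : A => L.mkQ ((a : E) - x)) ∘ f)) := by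
        unfold Sp
        rw [Submodule.map_span]
        congr 1
        ext y
        constructor
        · rintro ⟨_, ⟨a, ha, rfl⟩, rfl⟩
          obtain ⟨k, -, rfl⟩ := Finset.mem_image.1 (Finset.mem_coe.1 ha)
          exact ⟨k, rfl⟩
        · rintro ⟨k, rfl⟩
          exact ⟨_, ⟨(f k : E), Finset.mem_coe.2 (Finset.mem_image_of_mem _ (mem_univ k)), rfl⟩,
            rfl⟩
      rw [h4, hspan]
      have h5 : (Sp A x).map L.mkQ = Submodule.span ℝ
          (Set.range (fun a : A => L.mkQ ((a : E) - x))) := by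
        unfold Sp
        rw [Submodule.map_span]
        congr 1
        ext y
        constructor
        · rintro ⟨_, ⟨a, ha, rfl⟩, rfl⟩
          exact ⟨⟨a, ha⟩, rfl⟩
        · rintro ⟨a, rfl⟩
          exact ⟨_, ⟨(a : E), a.2, rfl⟩, rfl⟩
      rw [← h5]
      exact Submodule.mem_map_of_mem hv
    obtain ⟨u, hu, he⟩ := Submodule.mem_map.1 h3
    refine ⟨u, hu, ?_⟩
    rw [← Submodule.ker_mkQ L, LinearMap.mem_ker, map_sub, he, sub_self]
  -- the negative of the sum over `I`, modulo `L`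
  have hp : -∑ a ∈ I, (a - x) ∈ Sp A x :=
    Submodule.neg_mem _ (Submodule.sum_mem _ fun a ha => mem_Sp (hIA ha))
  obtain ⟨c, hc, hcs⟩ := hA _ hp
  obtain ⟨U, hUA, hUc, c', hc', hsum⟩ :=
    Pool.Agent.Y36.PG.cone_caratheodory (fun a : E => L.mkQ (a - x)) A c hc
  refine ⟨B₀ ∪ I ∪ U, fun a ha => mem_union_left _ (mem_union_left _ ha),
    union_subset (union_subset hB hIA) hUA, ?_, ?_⟩
  · have h3 := Finset.card_union_le (B₀ ∪ I) U
    have h4 := Finset.card_union_le B₀ I
    omega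
  · have hBD : ∀ l ∈ L, Cn (B₀ ∪ I ∪ U) x l := fun l hl =>
      (cn_of_pos hw h1 h2 hl).mono fun a ha => mem_union_left _ (mem_union_left _ ha)
    have hsumI : Cn (B₀ ∪ I ∪ U) x (-∑ a ∈ I, (a - x)) := by
      have h3 : -∑ a ∈ I, (a - x) - ∑ a ∈ U, c' a • (a - x) ∈ L := by
        rw [← Submodule.ker_mkQ L, LinearMap.mem_ker, map_sub, ← hcs]
        simp only [map_sum, map_smul]
        rw [hsum, sub_self]
      have h4 := hBD _ h3
      have h5 : Cn (B₀ ∪ I ∪ U) x (∑ a ∈ U, c' a • (a - x)) :=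
        Cn.sum U fun a ha => (Cn.single (mem_union_right _ ha)).smul (hc' a ha)
      have := h4.add h5
      rwa [sub_add_cancel] at this
    have hnegI : ∀ a ∈ I, Cn (B₀ ∪ I ∪ U) x (a - x) ∧ Cn (B₀ ∪ I ∪ U) x (-(a - x)) := by
      intro a ha
      refine ⟨Cn.single (mem_union_left _ (mem_union_right _ ha)), ?_⟩
      have h3 : -(a - x) = -∑ b ∈ I, (b - x) + ∑ b ∈ I.erase a, (b - x) := by
        rw [← Finset.add_sum_erase I (fun b => b - x) ha]
        abel
      rw [h3]
      apply hsumI.add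
      apply Cn.sum
      intro b hb
      exact Cn.single (mem_union_left _ (mem_union_right _ (Finset.mem_of_mem_erase hb)))
    intro v hv
    obtain ⟨u, hu, hl⟩ := hmod v hv
    have h3 := (span_of_neg hnegI hu).add (hBD _ hl)
    rwa [add_sub_cancel] at h3

end cone

/-- If `x` is in the relative interior of `conv A` and in `conv B`, `B ⊆ A`, then there are
`B₀ ⊆ B` and `D ⊆ A` with at most `2 d + 1` points such that `B₀ ⊆ D`, `x ∈ conv B₀`, and `x` is in
the relative interior of `conv D'` whenever `D ⊆ D' ⊆ A`. -/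
theorem exists_small {d : ℕ} {A B : Finset (EuclideanSpace ℝ (Fin d))}
    {x : EuclideanSpace ℝ (Fin d)} (hBA : B ⊆ A)
    (hxB : x ∈ convexHull ℝ (B : Set (EuclideanSpace ℝ (Fin d))))
    (hxA : x ∈ intrinsicInterior ℝ (convexHull ℝ (A : Set (EuclideanSpace ℝ (Fin d))))) :
    ∃ B₀ D : Finset (EuclideanSpace ℝ (Fin d)), B₀ ⊆ B ∧ B₀ ⊆ D ∧ D ⊆ A ∧
      D.card ≤ 2 * d + 1 ∧ x ∈ convexHull ℝ (B₀ : Set (EuclideanSpace ℝ (Fin d))) ∧
      ∀ D', D ⊆ D' → D' ⊆ A →
        x ∈ intrinsicInterior ℝ (convexHull ℝ (D' : Set (EuclideanSpace ℝ (Fin d)))) := by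
  classical
  obtain ⟨wA, wA0, wA1, wA2⟩ := Pool.Agent.X158.RelInt.posComb_of_mem_ri hxA
  have hA : ∀ v ∈ Sp A x, Cn A x v := fun v hv => cn_of_pos wA0 wA1 wA2 hv
  obtain ⟨ι, _, z, w, hz, hai, hw0, hw1, hw2⟩ := eq_pos_convex_span_of_mem_convexHull hxB
  have hinj := hai.injective
  set B₀ := univ.image z with hB₀
  have hB₀B : B₀ ⊆ B := by
    intro a ha
    obtain ⟨i, -, rfl⟩ := Finset.mem_image.1 ha
    exact hz ⟨i, rfl⟩
  -- the weights as a function on points
  set w' : EuclideanSpace ℝ (Fin d) → ℝ := fun a => if h : ∃ i, z i = a then w h.choose else 0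
    with hw'
  have hw'z : ∀ i, w' (z i) = w i := by
    intro i
    have h : ∃ j, z j = z i := ⟨i, rfl⟩
    simp only [hw', dif_pos h]
    rw [hinj h.choose_spec]
  have k0 : ∀ a ∈ B₀, 0 < w' a := by
    intro a ha
    obtain ⟨i, -, rfl⟩ := Finset.mem_image.1 ha
    rw [hw'z]
    exact hw0 i
  have k1 : ∑ a ∈ B₀, w' a = 1 := by
    rw [hB₀, Finset.sum_image fun i _ j _ h => hinj h]
    simp_rw [hw'z]
    exact hw1
  have k2 : ∑ a ∈ B₀, w' a • a = x := by
    rw [hB₀, Finset.sum_image fun i _ j _ h => hinj h]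
    simp_rw [hw'z]
    exact hw2
  obtain ⟨D, hBD, hDA, hDc, hD⟩ := steinitz (hB₀B.trans hBA) k0 k1 k2 hA
  have hcard : B₀.card ≤ Module.finrank ℝ (Sp B₀ x) + 1 := by
    have := finrank_span_diff hai x
    have h2 : B₀.card = Fintype.card ι := by
      rw [hB₀, Finset.card_image_of_injective _ hinj, Finset.card_univ]
    rw [h2]
    exact this
  have hBne : 1 ≤ B₀.card := by
    rw [Nat.one_le_iff_ne_zero]
    intro h
    rw [Finset.card_eq_zero] at h
    rw [h] at k1
    simp at k1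
  have hdE : Module.finrank ℝ (EuclideanSpace ℝ (Fin d)) = d := by simp
  refine ⟨B₀, D, hB₀B, hBD, hDA, by omega, ?_, ?_⟩
  · rw [Pool.Agent.X158.RelInt.mem_hull_iff]
    exact ⟨w', fun a ha => (k0 a ha).le, k1, k2⟩
  · intro D' hDD' hD'A
    apply Pool.Agent.X158.RelInt.PosComb.mem_ri
    -- a positive combination
    have hneg : -∑ a ∈ D', (a - x) ∈ Sp A x :=
      Submodule.neg_mem _ (Submodule.sum_mem _ fun a ha => mem_Sp (hD'A ha))
    obtain ⟨c, hc0, hc⟩ := (hD _ hneg).mono hDD'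
    have hD'ne : D'.Nonempty := by
      obtain ⟨b, hb⟩ := Finset.card_pos.1 hBne
      exact ⟨b, hDD' (hBD hb)⟩
    have hs : 0 < ∑ a ∈ D', (1 + c a) :=
      Finset.sum_pos (fun a ha => by have := hc0 a ha; linarith) hD'ne
    have hzero : ∑ a ∈ D', (1 + c a) • (a - x) = 0 := by
      simp_rw [add_smul, one_smul]
      rw [Finset.sum_add_distrib, hc, add_neg_cancel]
    refine ⟨fun a => (∑ a ∈ D', (1 + c a))⁻¹ * (1 + c a), fun a ha => ?_, ?_, ?_⟩
    · have := hc0 a ha
      positivity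
    · rw [← Finset.mul_sum, inv_mul_cancel₀ hs.ne']
    · simp_rw [mul_smul]
      rw [← Finset.smul_sum]
      have h3 : ∑ a ∈ D', (1 + c a) • a = (∑ a ∈ D', (1 + c a)) • x := by
        simp_rw [smul_sub] at hzero
        rw [Finset.sum_sub_distrib, ← Finset.sum_smul, sub_eq_zero] at hzero
        exact hzero
      rw [h3, smul_smul, inv_mul_cancel₀ hs.ne', one_smul]

/-- A finite set `A` in `ℝ^d` is `k`-almost-neighborly, `k ≤ 2 d + 1`, if every subset of `A` with
at most `2 d + 1` points is `k`-almost-neighborly. In particular the negated form of the question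
is false. -/
theorem result : ∀ (d k : ℕ), k ≤ 2 * d + 1 → ∀ A : Finset (EuclideanSpace ℝ (Fin d)),
    (∀ B ⊆ A, B.card ≤ 2 * d + 1 → AlmostNeighborly k B) → AlmostNeighborly k A := by
  intro d k hk A hsub B hBA hBk x hxB
  by_contra hx
  have hxA : x ∈ convexHull ℝ (A : Set (EuclideanSpace ℝ (Fin d))) :=
    convexHull_mono (Finset.coe_subset.2 hBA) hxB
  have hri : x ∈ intrinsicInterior ℝ (convexHull ℝ (A : Set (EuclideanSpace ℝ (Fin d)))) := by
    rw [← intrinsicClosure_sdiff_intrinsicFrontier]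
    exact ⟨subset_intrinsicClosure hxA, hx⟩
  obtain ⟨B₀, D, hB₀B, hB₀D, hDA, hDc, hxB₀, hD⟩ := exists_small hBA hxB hri
  -- enlarge `D` to at least `k` points
  obtain ⟨D', hDD', hD'A, hD'c, hkD'⟩ : ∃ D', D ⊆ D' ∧ D' ⊆ A ∧ D'.card ≤ 2 * d + 1 ∧
      k ≤ D'.card := by
    rcases le_total k D.card with h | h
    · exact ⟨D, Subset.rfl, hDA, hDc, h⟩
    · obtain ⟨D', h1, h2, h3⟩ := Finset.exists_subsuperset_card_eq hDA h
        (by rw [← hBk]; exact Finset.card_le_card hBA)
      exact ⟨D', h1, h2, by omega, by omega⟩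
  obtain ⟨B', hB'1, hB'2, hB'k⟩ := Finset.exists_subsuperset_card_eq (hB₀D.trans hDD')
    (by rw [← hBk]; exact Finset.card_le_card hB₀B) hkD'
  have hxB' : x ∈ convexHull ℝ (B' : Set (EuclideanSpace ℝ (Fin d))) :=
    convexHull_mono (Finset.coe_subset.2 hB'1) hxB₀
  have hfr := hsub D' hD'A hD'c B' hB'2 hB'k hxB'
  have hin := hD D' hDD' hD'A
  rw [← intrinsicClosure_sdiff_intrinsicFrontier] at hin
  exact hin.2 hfr

end Pool.Agent.Results.MP_aae461_co.HellyTwoDPlusOne
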